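import Pool.Graph.R_seed8.V11250.IsoDefs

/-!
# Associative algebras over a commutative ring: first-order language, free algebras,
logically perfect and logically regular varieties
-/

set_option autoImplicit false

namespace Pool.Agent.H85.LP

open FirstOrder Pool.Agent.V11250.IsoDefs

universe u v w

/-- The function symbols of the first-order language of `K`-algebras. -/
inductive AlgFn (K : Type u) : ℕ → Type u
  | zero : AlgFn K 0
  | add : AlgFn K 2
  | neg : AlgFn K 1
  | mul : AlgFn K 2
  | smul (c : K) : AlgFn K 1

/-- The first-order language of `K`-algebras: `0, +, -, *` and one unary symbol for every scalar. -/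
def algLang (K : Type u) : FirstOrder.Language.{u, 0} := ⟨AlgFn K, fun _ => Empty⟩

/-- The interpretation of the function symbols in an algebra. -/
def algFunMap (K : Type u) [CommRing K] (A : Type v) [NonUnitalRing A] [Module K A] :
    ∀ {n : ℕ}, AlgFn K n → (Fin n → A) → A
  | _, AlgFn.zero, _ => 0
  | _, AlgFn.add, xs => xs 0 + xs 1
  | _, AlgFn.neg, xs => - xs 0
  | _, AlgFn.mul, xs => xs 0 * xs 1
  | _, AlgFn.smul c, xs => c • xs 0

/-- An algebra as a structure for the language of `K`-algebras. -/
instance algStructure (K : Type u) [CommRing K] (A : Type v) [NonUnitalRing A] [Module K A] :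
    (algLang K).Structure A where
  funMap := fun f xs => algFunMap K A f xs
  RelMap := fun r _ => r.elim

/-- `A` with the generators `x i` is the free algebra of rank `r` in the variety of all
(not necessarily unital) associative `K`-algebras. -/
def IsFreeAss (K : Type u) [CommRing K] (r : ℕ) (A : Type u) [NonUnitalRing A] [Module K A]
    (x : Fin r → A) : Prop :=
  ∀ (B : Type u) [NonUnitalRing B] [Module K B] [IsScalarTower K B B]
    [SMulCommClass K B B], ∀ y : Fin r → B, ∃! f : A →ₙₐ[K] B, ∀ i, f (x i) = y i

/-- `A` is logically separable in the variety: every associative algebra `B` which is isotypic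
to `A` is isomorphic to `A`. -/
def Separable (K : Type u) [CommRing K] (A : Type u) [NonUnitalRing A] [Module K A] : Prop :=
  ∀ (B : Type u) [NonUnitalRing B] [Module K B] [IsScalarTower K B B] [SMulCommClass K B B],
    Isotypic (algLang K) A B → ∃ f : A →ₙₐ[K] B, Function.Bijective f

/-- `A` is logically homogeneous: two tuples have the same type if and only if some automorphism
of `A` maps one to the other. -/
def Homogeneous (K : Type u) [CommRing K] (A : Type u) [NonUnitalRing A] [Module K A] : Prop :=
  ∀ (m : ℕ) (μ ν : Fin m → A), tp (algLang K) A μ = tp (algLang K) A ν ↔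
    ∃ σ : A →ₙₐ[K] A, Function.Bijective σ ∧ ∀ i, σ (μ i) = ν i

/-- The variety of all associative `K`-algebras is logically perfect. -/
def LogicallyPerfect (K : Type u) [CommRing K] : Prop :=
  ∀ (r : ℕ) (A : Type u) [NonUnitalRing A] [Module K A] [IsScalarTower K A A]
    [SMulCommClass K A A] (x : Fin r → A), IsFreeAss K r A x → Homogeneous K A

/-- The variety of all associative `K`-algebras is logically regular. -/
def LogicallyRegular (K : Type u) [CommRing K] : Prop :=
  ∀ (r : ℕ) (A : Type u) [NonUnitalRing A] [Module K A] [IsScalarTower K A A]
    [SMulCommClass K A A] (x : Fin r → A), IsFreeAss K r A x → Separable K A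

end Pool.Agent.H85.LP
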