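import Pool.Agent.H85.LP.FA1
import Pool.Agent.H85.LP.Defs

/-!
# Existence of the free non-unital associative algebras
-/

set_option autoImplicit false

namespace Pool.Agent.H85.LP

universe u

section

variable (K : Type u) [CommRing K] (r : ℕ)

/-- The augmentation. -/
noncomputable def aug : FA K r →ₐ[K] K := FreeAlgebra.lift K (fun _ => 0)

/-- The augmentation ideal. -/
noncomputable def AugI : NonUnitalSubalgebra K (FA K r) where
  carrier := {a | aug K r a = 0}
  add_mem' := by
    intro a b ha hb
    show aug K r (a + b) = 0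
    rw [map_add, show aug K r a = 0 from ha, show aug K r b = 0 from hb, add_zero]
  zero_mem' := map_zero _
  mul_mem' := by
    intro a b ha _
    show aug K r (a * b) = 0
    rw [map_mul, show aug K r a = 0 from ha, zero_mul]
  smul_mem' := by
    intro c a ha
    show aug K r (c • a) = 0
    rw [map_smul, show aug K r a = 0 from ha, smul_zero]

/-- The generators. -/
noncomputable def gen (i : Fin r) : AugI K r := ⟨FreeAlgebra.ι K i, by
  show aug K r (FreeAlgebra.ι K i) = 0
  exact FreeAlgebra.lift_ι_apply _ _⟩

theorem adjoin_gen : ∀ a : AugI K r, a ∈ NonUnitalAlgebra.adjoin K (Set.range (gen K r)) := by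
  have key : ∀ a : FA K r, ∃ g ∈ NonUnitalAlgebra.adjoin K (Set.range (gen K r)),
      (g : FA K r) = a - algebraMap K _ (aug K r a) := by
    intro a
    induction a using FreeAlgebra.induction K (Fin r) with
    | grade0 c => exact ⟨0, zero_mem _, by simp [aug]⟩
    | grade1 i =>
      refine ⟨gen K r i, NonUnitalAlgebra.subset_adjoin K ⟨i, rfl⟩, ?_⟩
      have : aug K r (FreeAlgebra.ι K i) = 0 := FreeAlgebra.lift_ι_apply _ _
      rw [this, map_zero, sub_zero]
      rfl
    | mul a b ha hb =>
      obtain ⟨g, hg, hg'⟩ := ha
      obtain ⟨h, hh, hh'⟩ := hb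
      refine ⟨g * h + aug K r a • h + aug K r b • g, add_mem (add_mem (mul_mem hg hh)
        (SMulMemClass.smul_mem _ hh)) (SMulMemClass.smul_mem _ hg), ?_⟩
      show (g : FA K r) * h + aug K r a • (h : FA K r) + aug K r b • (g : FA K r) = _
      rw [hg', hh', map_mul, map_mul, Algebra.smul_def, Algebra.smul_def,
        Algebra.commutes (aug K r b)]
      noncomm_ring
    | add a b ha hb =>
      obtain ⟨g, hg, hg'⟩ := ha
      obtain ⟨h, hh, hh'⟩ := hb
      refine ⟨g + h, add_mem hg hh, ?_⟩
      show (g : FA K r) + h = _
      rw [hg', hh', map_add, map_add]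
      abel
  intro a
  obtain ⟨g, hg, hg'⟩ := key a
  have h0 : aug K r (a : FA K r) = 0 := a.2
  rw [h0, map_zero, sub_zero] at hg'
  have : g = a := Subtype.ext hg'
  rwa [← this]

theorem isFree_aug : IsFreeAss K r (AugI K r) (gen K r) := by
  intro B _ _ _ _ y
  let p : FA K r →ₐ[K] Unitization K B := FreeAlgebra.lift K (fun i => Unitization.inr (y i))
  have hp : ∀ i, p (FreeAlgebra.ι K i) = Unitization.inr (y i) :=
    fun i => FreeAlgebra.lift_ι_apply _ _
  have hfst : ∀ a : FA K r, (p a).fst = aug K r a := by
    have h1 : (Unitization.fstHom K B).comp p = aug K r := by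
      apply FreeAlgebra.hom_ext
      funext i
      show (p (FreeAlgebra.ι K i)).fst = aug K r (FreeAlgebra.ι K i)
      rw [hp, show aug K r (FreeAlgebra.ι K i) = 0 from FreeAlgebra.lift_ι_apply _ _]
      exact Unitization.fst_inr K (y i)
    exact fun a => congrArg (fun t : FA K r →ₐ[K] K => t a) h1
  have hinr : ∀ a : AugI K r, p (a : FA K r) = Unitization.inr (p (a : FA K r)).snd := by
    intro a
    have h0 : aug K r (a : FA K r) = 0 := a.2
    apply Unitization.ext
    · rw [hfst, h0]
      exact (Unitization.fst_inr K _).symm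
    · exact (Unitization.snd_inr K _).symm
  let f : AugI K r →ₙₐ[K] B :=
    { toFun := fun a => (p (a : FA K r)).snd
      map_smul' := fun c a => by
        show (p (c • (a : FA K r))).snd = c • (p (a : FA K r)).snd
        rw [map_smul]
        rfl
      map_zero' := by
        show (p (0 : FA K r)).snd = 0
        rw [map_zero]
        rfl
      map_add' := fun a b => by
        show (p ((a : FA K r) + b)).snd = _
        rw [map_add]
        rfl
      map_mul' := fun a b => by
        show (p ((a : FA K r) * b)).snd = (p (a : FA K r)).snd * (p (b : FA K r)).snd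
        rw [map_mul]
        conv_lhs => rw [hinr a, hinr b]
        rw [← Unitization.inr_mul]
        exact Unitization.snd_inr K _ }
  have hf : ∀ i, f (gen K r i) = y i := by
    intro i
    show (p (FreeAlgebra.ι K i)).snd = y i
    rw [hp]
    exact Unitization.snd_inr K _
  refine ⟨f, hf, fun g hg => ?_⟩
  ext a
  have ha := adjoin_gen K r a
  induction ha using NonUnitalAlgebra.adjoin_induction with
  | mem v hv =>
    obtain ⟨i, rfl⟩ := hv
    rw [hf]
    exact hg i
  | add a b _ _ ha hb => rw [map_add, map_add, ha, hb]
  | zero => rw [map_zero, map_zero]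
  | mul a b _ _ ha hb => rw [map_mul, map_mul, ha, hb]
  | smul c a _ ha => rw [map_smul, map_smul, ha]

end

end Pool.Agent.H85.LP
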