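import Pool.Agent.H85.LP.Defs
import Pool.Graph.R_seed8.V11250.IsoGen

/-!
# Terms and automorphisms
-/

set_option autoImplicit false

namespace Pool.Agent.H85.LP

open FirstOrder Pool.Agent.V11250.IsoDefs

universe u w

section

variable (K : Type u)

/-- the term `0` -/
def zeroT {α : Type w} : (algLang K).Term α :=
  Language.Term.func (l := 0) (AlgFn.zero : AlgFn K 0) ![]

/-- the term `s + t` -/
def addT {α : Type w} (s t : (algLang K).Term α) : (algLang K).Term α :=
  Language.Term.func (l := 2) (AlgFn.add : AlgFn K 2) ![s, t]

/-- the term `s * t` -/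
def mulT {α : Type w} (s t : (algLang K).Term α) : (algLang K).Term α :=
  Language.Term.func (l := 2) (AlgFn.mul : AlgFn K 2) ![s, t]

end

variable {K : Type u} [CommRing K] {A : Type u} [NonUnitalRing A] [Module K A]

theorem realize_addT {α : Type w} (s t : (algLang K).Term α) (v : α → A) :
    (addT K s t).realize v = s.realize v + t.realize v := rfl

theorem realize_mulT {α : Type w} (s t : (algLang K).Term α) (v : α → A) :
    (mulT K s t).realize v = s.realize v * t.realize v := rfl

/-- homomorphisms commute with terms -/
theorem hom_realize {B : Type u} [NonUnitalRing B] [Module K B] (σ : A →ₙₐ[K] B) {α : Type}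
    (v : α → A) (t : (algLang K).Term α) :
    σ (t.realize v) = t.realize (fun a => σ (v a)) := by
  induction t with
  | var a => rfl
  | @func l f ts ih =>
    match l, f with
    | _, AlgFn.zero => exact map_zero σ
    | _, AlgFn.add =>
      refine (map_add σ ((ts 0).realize v) ((ts 1).realize v)).trans ?_
      rw [ih 0, ih 1]
      rfl
    | _, AlgFn.neg =>
      refine (map_neg σ ((ts 0).realize v)).trans ?_
      rw [ih 0]
      rfl
    | _, AlgFn.mul =>
      refine (map_mul σ ((ts 0).realize v) ((ts 1).realize v)).trans ?_
      rw [ih 0, ih 1]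
      rfl
    | _, AlgFn.smul c =>
      refine (map_smul σ c ((ts 0).realize v)).trans ?_
      rw [ih 0]
      rfl

/-- A bijective endomorphism as an automorphism of the structure. -/
noncomputable def autEquiv (σ : A →ₙₐ[K] A) (h : Function.Bijective σ) : A ≃[algLang K] A where
  toEquiv := _root_.Equiv.ofBijective σ h
  map_fun' := by
    intro l f xs
    show σ (algFunMap K A f xs) = algFunMap K A f (σ ∘ xs)
    match l, f with
    | _, AlgFn.zero => exact map_zero σ
    | _, AlgFn.add => exact map_add σ _ _
    | _, AlgFn.neg => exact map_neg σ _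
    | _, AlgFn.mul => exact map_mul σ _ _
    | _, AlgFn.smul c => exact map_smul σ c _
  map_rel' := fun r => r.elim

theorem tp_eq_of_aut {m : ℕ} (μ ν : Fin m → A) (σ : A →ₙₐ[K] A) (h : Function.Bijective σ)
    (hσ : ∀ i, σ (μ i) = ν i) : tp (algLang K) A μ = tp (algLang K) A ν := by
  ext φ
  have h1 := Language.StrongHomClass.realize_formula (autEquiv σ h) φ (v := μ)
  have h2 : (autEquiv σ h : A → A) ∘ μ = ν := funext hσ
  rw [h2] at h1
  exact h1.symm

end Pool.Agent.H85.LP
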