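import Pool.Agent.H85.LP.FA3
import Pool.Graph.R_seed8.V11250.DefTool
import Pool.Agent.H85.LP.Terms

/-!
# Free non-unital associative algebras: definability of the bases
-/

set_option autoImplicit false
set_option linter.unusedSectionVars false

namespace Pool.Agent.H85.LP

open Pool.Agent.V11250.DefTool FirstOrder

universe u

variable {K : Type u} [CommRing K] [IsDomain K] {r : ℕ}

section Terms

variable {G : Type u} [NonUnitalRing G] [Module K G] {α : Type}

theorem tf_zero : TF (algLang K) (fun _ : α → G => (0 : G)) := ⟨zeroT K, fun _ => rfl⟩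

theorem tf_add {f g : (α → G) → G} (hf : TF (algLang K) f) (hg : TF (algLang K) g) :
    TF (algLang K) (fun v => f v + g v) := by
  obtain ⟨s, hs⟩ := hf
  obtain ⟨t, ht⟩ := hg
  exact ⟨addT K s t, fun v => by rw [realize_addT, hs, ht]⟩

theorem tf_mul {f g : (α → G) → G} (hf : TF (algLang K) f) (hg : TF (algLang K) g) :
    TF (algLang K) (fun v => f v * g v) := by
  obtain ⟨s, hs⟩ := hf
  obtain ⟨t, ht⟩ := hg
  exact ⟨mulT K s t, fun v => by rw [realize_mulT, hs, ht]⟩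

theorem tf_sum {ι : Type} (s : Finset ι) {f : ι → (α → G) → G} (hf : ∀ i, TF (algLang K) (f i)) :
    TF (algLang K) (fun v => ∑ i ∈ s, f i v) := by
  classical
  induction s using Finset.induction_on with
  | empty => simpa using tf_zero
  | insert a s ha ih => simpa only [Finset.sum_insert ha] using tf_add (hf a) ih

/-! ## Definability of the conditions -/

theorem dfn_PosP (i₀ i₁ : Fin r) {y : Fin r → (α → G) → G} {e s u : (α → G) → G}
    (hy : ∀ i, TF (algLang K) (y i)) (he : TF (algLang K) e) (hs : TF (algLang K) s)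
    (hu : TF (algLang K) u) :
    Dfn (algLang K) (fun v => PosP i₀ i₁ (fun i => y i v) (e v) (s v) (u v)) := by
  unfold PosP aY
  refine Dfn.ex (P := fun v w => e v = s v * (y i₀ v * u v * y i₀ v + y i₁ v) * w) ?_
  exact Dfn.eq he.lift (tf_mul (tf_mul hs.lift (tf_add (tf_mul (tf_mul (hy i₀).lift hu.lift)
    (hy i₀).lift) (hy i₁).lift)) (TF.var (Sum.inr ())))

theorem dfn_DiP {y : Fin r → (α → G) → G} {d : (α → G) → G} (i : Fin r)
    (hy : ∀ i, TF (algLang K) (y i)) (hd : TF (algLang K) d) :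
    Dfn (algLang K) (fun v => DiP (fun i => y i v) i (d v)) := by
  unfold DiP
  refine Dfn.exs (P := fun v t => t i = d v ∧ ∀ k l, t k * y l v = y k v * t l) ?_
  refine Dfn.and (Dfn.eq (TF.var (Sum.inr i)) hd.lift) ?_
  refine Dfn.forallFin fun k => Dfn.forallFin fun l => ?_
  exact Dfn.eq (tf_mul (TF.var (Sum.inr k)) (hy l).lift) (tf_mul (hy k).lift (TF.var (Sum.inr l)))

theorem dfn_SqP {d : (α → G) → G} (hd : TF (algLang K) d) :
    Dfn (algLang K) (fun v => SqP r (d v)) := by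
  unfold SqP
  refine Dfn.exs (P := fun v (p : Fin r → G) => ∃ q : Fin r → G, d v = ∑ i, p i * q i) ?_
  refine Dfn.exs (P := fun (v : α ⊕ Fin r → G) (q : Fin r → G) =>
    d (fun a => v (Sum.inl a)) = ∑ i, v (Sum.inr i) * q i) ?_
  exact Dfn.eq hd.lift.lift (tf_sum _ fun i => tf_mul (TF.var (Sum.inl (Sum.inr i)))
    (TF.var (Sum.inr i)))

theorem dfn_StepP (i₀ i₁ : Fin r) {y : Fin r → (α → G) → G} {e s u : (α → G) → G}
    (hy : ∀ i, TF (algLang K) (y i)) (he : TF (algLang K) e) (hs : TF (algLang K) s)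
    (hu : TF (algLang K) u) :
    Dfn (algLang K) (fun v => StepP i₀ i₁ (fun i => y i v) (e v) (s v) (u v)) := by
  unfold StepP
  refine Dfn.or (Dfn.existsFin fun i => dfn_DiP i hy hu) ?_
  have h : Dfn (algLang K) (fun v => ∃ t : Fin 6 → G, s v = t 0 * t 1 ∧ s v = t 3 * t 4 ∧
      PosP i₀ i₁ (fun i => y i v) (e v) (t 0) (t 2) ∧
      PosP i₀ i₁ (fun i => y i v) (e v) (t 3) (t 5) ∧ (u v = t 2 + t 5 ∨ u v = t 2 * t 5)) := by
    refine Dfn.exs (P := fun v (t : Fin 6 → G) => s v = t 0 * t 1 ∧ s v = t 3 * t 4 ∧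
      PosP i₀ i₁ (fun i => y i v) (e v) (t 0) (t 2) ∧
      PosP i₀ i₁ (fun i => y i v) (e v) (t 3) (t 5) ∧ (u v = t 2 + t 5 ∨ u v = t 2 * t 5)) ?_
    refine Dfn.and (Dfn.eq hs.lift (tf_mul (TF.var _) (TF.var _))) ?_
    refine Dfn.and (Dfn.eq hs.lift (tf_mul (TF.var _) (TF.var _))) ?_
    refine Dfn.and (dfn_PosP i₀ i₁ (fun i => (hy i).lift) he.lift (TF.var _) (TF.var _)) ?_
    refine Dfn.and (dfn_PosP i₀ i₁ (fun i => (hy i).lift) he.lift (TF.var _) (TF.var _)) ?_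
    exact Dfn.or (Dfn.eq hu.lift (tf_add (TF.var _) (TF.var _)))
      (Dfn.eq hu.lift (tf_mul (TF.var _) (TF.var _)))
  refine h.congr fun v => ?_
  constructor
  · rintro ⟨t, ht⟩
    exact ⟨t 0, t 1, t 2, t 3, t 4, t 5, ht⟩
  · rintro ⟨a, b, c, d, e', f, h'⟩
    exact ⟨![a, b, c, d, e', f], h'⟩

theorem dfn_GenP (i₀ i₁ : Fin r) {y : Fin r → (α → G) → G} {w : (α → G) → G}
    (hy : ∀ i, TF (algLang K) (y i)) (hw : TF (algLang K) w) :
    Dfn (algLang K) (fun v => GenP i₀ i₁ (fun i => y i v) (w v)) := by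
  unfold GenP
  refine Dfn.ex (P := fun v e => ∃ s : G, s ≠ 0 ∧ PosP i₀ i₁ (fun i => y i v) e s (w v) ∧
    ∀ s u, s ≠ 0 → PosP i₀ i₁ (fun i => y i v) e s u → StepP i₀ i₁ (fun i => y i v) e s u) ?_
  refine Dfn.ex (P := fun (v : α ⊕ Unit → G) s => s ≠ 0 ∧
    PosP i₀ i₁ (fun i => y i (fun a => v (Sum.inl a))) (v (Sum.inr ())) s
      (w (fun a => v (Sum.inl a))) ∧
    ∀ s u, s ≠ 0 → PosP i₀ i₁ (fun i => y i (fun a => v (Sum.inl a))) (v (Sum.inr ())) s u →
      StepP i₀ i₁ (fun i => y i (fun a => v (Sum.inl a))) (v (Sum.inr ())) s u) ?_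
  refine Dfn.and (Dfn.eq (TF.var _) tf_zero).not ?_
  refine Dfn.and (dfn_PosP i₀ i₁ (fun i => (hy i).lift.lift) (TF.var _).lift (TF.var _)
    hw.lift.lift) ?_
  refine Dfn.all (P := fun (v : (α ⊕ Unit) ⊕ Unit → G) s => ∀ u, s ≠ 0 →
    PosP i₀ i₁ (fun i => y i (fun a => v (Sum.inl (Sum.inl a)))) (v (Sum.inl (Sum.inr ()))) s u →
      StepP i₀ i₁ (fun i => y i (fun a => v (Sum.inl (Sum.inl a)))) (v (Sum.inl (Sum.inr ())))
        s u) ?_
  refine Dfn.all (P := fun (v : ((α ⊕ Unit) ⊕ Unit) ⊕ Unit → G) u => v (Sum.inr ()) ≠ 0 →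
    PosP i₀ i₁ (fun i => y i (fun a => v (Sum.inl (Sum.inl (Sum.inl a)))))
      (v (Sum.inl (Sum.inl (Sum.inr ())))) (v (Sum.inr ())) u →
      StepP i₀ i₁ (fun i => y i (fun a => v (Sum.inl (Sum.inl (Sum.inl a)))))
        (v (Sum.inl (Sum.inl (Sum.inr ())))) (v (Sum.inr ())) u) ?_
  refine Dfn.imp (Dfn.eq (TF.var _) tf_zero).not ?_
  exact Dfn.imp (dfn_PosP i₀ i₁ (fun i => (hy i).lift.lift.lift.lift) (TF.var _) (TF.var _)
    (TF.var _)) (dfn_StepP i₀ i₁ (fun i => (hy i).lift.lift.lift.lift) (TF.var _) (TF.var _)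
    (TF.var _))

theorem dfn_ScalP : Dfn (algLang K) (fun y : Fin r → G => ScalP y) := by
  have h : Dfn (algLang K) (fun y : Fin r → G => ¬ ∃ t : Fin r → G,
      (∀ k l, t k * y l = y k * t l) ∧ ¬ ∀ v : G, ∃ v' : G, ∀ i, t i * v = y i * v') := by
    refine Dfn.not (Dfn.exs (P := fun (y : Fin r → G) (t : Fin r → G) =>
      (∀ k l, t k * y l = y k * t l) ∧ ¬ ∀ v : G, ∃ v' : G, ∀ i, t i * v = y i * v') ?_)
    refine Dfn.and ?_ (Dfn.not ?_)
    · refine Dfn.forallFin fun k => Dfn.forallFin fun l => ?_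
      exact Dfn.eq (tf_mul (TF.var _) (TF.var _)) (tf_mul (TF.var _) (TF.var _))
    · refine Dfn.all (P := fun (z : Fin r ⊕ Fin r → G) (v : G) =>
        ∃ v' : G, ∀ i, z (Sum.inr i) * v = z (Sum.inl i) * v') ?_
      refine Dfn.ex (P := fun (z : (Fin r ⊕ Fin r) ⊕ Unit → G) (v' : G) =>
        ∀ i, z (Sum.inl (Sum.inr i)) * z (Sum.inr ()) = z (Sum.inl (Sum.inl i)) * v') ?_
      refine Dfn.forallFin fun i => ?_
      exact Dfn.eq (tf_mul (TF.var _) (TF.var _)) (tf_mul (TF.var _) (TF.var _))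
  refine h.congr fun y => ?_
  unfold ScalP
  push Not
  rfl

theorem dfn_BasisP (i₀ i₁ : Fin r) :
    Dfn (algLang K) (fun y : Fin r → G => BasisP i₀ i₁ y) := by
  unfold BasisP
  refine Dfn.and dfn_ScalP ?_
  refine Dfn.and ?_ ?_
  · refine Dfn.forallFin fun i => ?_
    refine Dfn.all (P := fun (y : Fin r → G) d => DiP y i d → SqP r d → d = 0) ?_
    exact Dfn.imp (dfn_DiP i (fun i => TF.var (Sum.inl i)) (TF.var _))
      (Dfn.imp (dfn_SqP (TF.var _)) (Dfn.eq (TF.var _) tf_zero))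
  · refine Dfn.all (P := fun (y : Fin r → G) w => GenP i₀ i₁ y w) ?_
    exact dfn_GenP i₀ i₁ (fun i => TF.var (Sum.inl i)) (TF.var _)

end Terms

/-! ## Rank one -/

section One

theorem comm_one (i : Fin 1) (a : FA K 1) : a * gx i = gx i * a := by
  induction a using fa_induction with
  | h0 c => exact Algebra.commutes c _
  | h1 k => rw [Subsingleton.elim k i]
  | h2 a b ha hb => rw [mul_assoc, hb, ← mul_assoc, ha, mul_assoc]
  | h3 a b ha hb => rw [add_mul, mul_add, ha, hb]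

variable {G : Type u} [NonUnitalRing G] [Module K G] [IsScalarTower K G G] [SMulCommClass K G G]
  {x : Fin 1 → G}

/-- The condition in rank one. -/
def OneP (y : Fin 1 → G) : Prop := ∀ p q s : G, ∃ w : G, p * q * s = y 0 * y 0 * w

theorem one_x (M : Mdl K 1 G x) : OneP x := by
  intro p q s
  have h1 : ∀ g : G, ∃ a : FA K 1, M.j g = gx 0 * a := by
    intro g
    obtain ⟨p, hp⟩ := exists_decomp (M.j g) (M.eps_j g)
    exact ⟨p 0, by rw [hp]; simp⟩
  obtain ⟨a, ha⟩ := h1 p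
  obtain ⟨b, hb⟩ := h1 q
  obtain ⟨w, hw⟩ := M.rng (a * b * M.j s) (by rw [map_mul, M.eps_j, mul_zero])
  refine ⟨w, M.inj ?_⟩
  rw [map_mul, map_mul, map_mul, map_mul, M.jx, hw, ha, hb]
  rw [mul_assoc (gx 0) a, ← mul_assoc a, comm_one 0 a]
  simp only [mul_assoc]

theorem one_sound (M : Mdl K 1 G x) {y : Fin 1 → G} (hy : OneP y) (v : G) :
    v ∈ NonUnitalAlgebra.adjoin K (Set.range y) := by
  obtain ⟨w, hw⟩ := hy (x 0) (x 0) (x 0)
  have h1 := congrArg (fun g => phi (M.j g)) hw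
  simp only [map_mul, M.jx] at h1
  have hx : phi (gx 0 : FA K 1) ≠ 0 := by
    intro h
    have h2 : (gx 0 : FA K 1) = 0 := phi_injective (by rw [h, map_zero])
    exact FreeAlgebra.ι_ne_zero (R := K) (0 : Fin 1) h2
  have hy0 : phi (M.j (y 0)) ≠ 0 := by
    intro h
    rw [h, zero_mul, zero_mul] at h1
    exact mul_ne_zero (mul_ne_zero hx hx) hx h1
  have hw0 : phi (M.j w) ≠ 0 := by
    intro h
    rw [h, mul_zero] at h1
    exact mul_ne_zero (mul_ne_zero hx hx) hx h1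
  have hdx : (phi (gx 0 : FA K 1)).natDegree = 1 := by
    rw [phi_gx]
    exact Polynomial.natDegree_C_mul_X _ (FreeAlgebra.ι_ne_zero (R := K) (0 : Fin 1))
  have h2 := congrArg Polynomial.natDegree h1
  rw [Polynomial.natDegree_mul (mul_ne_zero hx hx) hx, Polynomial.natDegree_mul hx hx,
    Polynomial.natDegree_mul (mul_ne_zero hy0 hy0) hw0, Polynomial.natDegree_mul hy0 hy0,
    hdx] at h2
  obtain ⟨p, hp⟩ := exists_decomp (M.j (y 0)) (M.eps_j _)
  have hp' : M.j (y 0) = gx 0 * p 0 := by rw [hp]; simp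
  have hp0 : phi (p 0) ≠ 0 := by
    intro h
    rw [hp', map_mul, h, mul_zero] at hy0
    exact hy0 rfl
  have h3 : (phi (M.j (y 0))).natDegree = 1 + (phi (p 0)).natDegree := by
    rw [hp', map_mul, Polynomial.natDegree_mul hx hp0, hdx]
  have h4 : (phi (p 0)).natDegree = 0 := by omega
  have h5 : p 0 = algebraMap K _ (eps (p 0)) := by
    apply phi_injective
    rw [Polynomial.eq_C_of_natDegree_eq_zero h4, phi_algebraMap]
    congr 1
    exact const_phi _
  obtain ⟨c, hc⟩ : ∃ c : K, c = eps (p 0) := ⟨_, rfl⟩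
  have hy : M.j (y 0) = c • gx 0 := by
    rw [hp', h5, ← hc, ← Algebra.commutes, ← Algebra.smul_def]
  have hgx : (gx 0 : FA K 1) ≠ 0 := FreeAlgebra.ι_ne_zero (R := K) (0 : Fin 1)
  have h9 : (gx 0 : FA K 1) = (c * c) • M.j w := by
    have e1 := congrArg M.j hw
    rw [map_mul, map_mul, map_mul, map_mul, M.jx, hy] at e1
    have e2 : (gx 0 * gx 0) * (gx 0 : FA K 1) = (gx 0 * gx 0) * ((c * c) • M.j w) := by
      rw [e1]
      simp only [smul_mul_assoc, mul_smul_comm, smul_smul]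
    exact mul_left_cancel₀ (mul_ne_zero hgx hgx) e2
  have h10 : c * (c * lin (M.j w) 0) = 1 := by
    have e1 := congrArg (fun a => lin a (0 : Fin 1)) h9
    simp only [lin_gx, if_pos, lin_smul] at e1
    rw [← mul_assoc]
    exact e1.symm
  have h7 : x 0 = (c * lin (M.j w) 0) • y 0 := by
    apply M.inj
    rw [map_smul, M.jx, hy, smul_smul, mul_comm, h10, one_smul]
  have h8 : NonUnitalAlgebra.adjoin K (Set.range x) ≤
      NonUnitalAlgebra.adjoin K (Set.range y) := by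
    rw [NonUnitalAlgebra.adjoin_le_iff]
    rintro _ ⟨i, rfl⟩
    rw [Subsingleton.elim i 0, h7]
    exact SMulMemClass.smul_mem _ (NonUnitalAlgebra.subset_adjoin K ⟨0, rfl⟩)
  exact h8 (adjoin_top M v)

theorem dfn_OneP : Dfn (algLang K) (fun y : Fin 1 → G => OneP y) := by
  have h : Dfn (algLang K) (fun y : Fin 1 → G => ¬ ∃ t : Fin 3 → G, ¬ ∃ w : G,
      t 0 * t 1 * t 2 = y 0 * y 0 * w) := by
    refine Dfn.not (Dfn.exs (P := fun (y : Fin 1 → G) (t : Fin 3 → G) => ¬ ∃ w : G,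
      t 0 * t 1 * t 2 = y 0 * y 0 * w) ?_)
    refine Dfn.not (Dfn.ex (P := fun (v : Fin 1 ⊕ Fin 3 → G) w =>
      v (Sum.inr 0) * v (Sum.inr 1) * v (Sum.inr 2) = v (Sum.inl 0) * v (Sum.inl 0) * w) ?_)
    exact Dfn.eq (tf_mul (tf_mul (TF.var _) (TF.var _)) (TF.var _))
      (tf_mul (tf_mul (TF.var _) (TF.var _)) (TF.var _))
  refine h.congr fun y => ?_
  push Not
  constructor
  · intro h p q s
    exact h ![p, q, s]
  · intro h t
    exact h _ _ _

end One

section All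

variable {G : Type u} [NonUnitalRing G] [Module K G] [IsScalarTower K G G] [SMulCommClass K G G]
  {x : Fin r → G}

/-- The bases are definable: a definable predicate which holds for the basis `x` and only for
generating tuples. -/
theorem exists_pred (M : Mdl K r G x) : ∃ B : (Fin r → G) → Prop, Dfn (algLang K) B ∧ B x ∧
    ∀ y, B y → ∀ v, v ∈ NonUnitalAlgebra.adjoin K (Set.range y) := by
  match r, x, M with
  | 0, x, M =>
    exact ⟨fun _ => (0 : G) = 0, Dfn.eq tf_zero tf_zero, rfl, fun y _ v => by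
      rw [Subsingleton.elim y x]
      exact adjoin_top M v⟩
  | 1, x, M => exact ⟨OneP, dfn_OneP, one_x M, fun y hy v => one_sound M hy v⟩
  | r + 2, x, M =>
    exact ⟨BasisP 0 1, dfn_BasisP 0 1, basis_x M 0 1 (by simp), fun y hy v =>
      gen_sound M 0 1 hy v⟩

/-- Elements are values of terms. -/
theorem exists_term {y : Fin r → G} {v : G} (hv : v ∈ NonUnitalAlgebra.adjoin K (Set.range y)) :
    ∃ t : (algLang K).Term (Fin r), t.realize y = v := by
  induction hv using NonUnitalAlgebra.adjoin_induction with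
  | mem v hv =>
    obtain ⟨i, rfl⟩ := hv
    exact ⟨Language.Term.var i, rfl⟩
  | add a b _ _ ha hb =>
    obtain ⟨s, rfl⟩ := ha
    obtain ⟨t, rfl⟩ := hb
    exact ⟨addT K s t, rfl⟩
  | zero => exact ⟨zeroT K, rfl⟩
  | mul a b _ _ ha hb =>
    obtain ⟨s, rfl⟩ := ha
    obtain ⟨t, rfl⟩ := hb
    exact ⟨mulT K s t, rfl⟩
  | smul c a _ ha =>
    obtain ⟨s, rfl⟩ := ha
    exact ⟨Language.Term.func (l := 1) (AlgFn.smul c : AlgFn K 1) ![s], rfl⟩

end All

end Pool.Agent.H85.LP
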